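import Mathlib
import Pool.Agent.Helper686_SK.Main

/-!
# Torsion free skein modules are flat skein modules

Q1 for all oriented 3-manifolds (connected or not) is equivalent to its strongest form: for every
oriented 3-manifold `M` in which every closed incompressible surface is parallel to the boundary,
the Kauffman bracket skein module over every commutative ring `R` and every unit `a` of `R` is a flat
`R`-module.

For a single manifold the proof gives: if `S(M)` and `S(M ⊔ M)` are torsion free then `S(M)` is
flat. This uses `S(M ⊔ M) = S(M) ⊗ S(M)` and the algebraic fact that a module over `ℤ[A, A⁻¹]`
which is torsion free together with its tensor square is flat.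
-/

set_option autoImplicit false

namespace Pool.Agent.Results.MP_6eb6d3_gt.FlatEquivalence

open Pool.Agent.Helper686.SK

theorem result :
    (∀ M : OM3, InClass M → TorsionFree (LaurentPolynomial ℤ) (KBSM M)) ↔
    (∀ M : OM3, InClass M → ∀ (R : Type) [CommRing R] (a : Rˣ),
      Module.Flat R (SkeinModule M R a)) :=
  equivalence

end Pool.Agent.Results.MP_6eb6d3_gt.FlatEquivalence
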